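import Pool.Agent.Q35.TB.Enr
import Pool.Agent.Q182.TT.Chf
import Pool.Agent.Q79.TT.Glt
import Pool.Agent.Y720.MZ.Sep

/-!
# Project TB (helper35), job SCF: algebraic extension of the ground field
-/

set_option autoImplicit false

open Pool.Agent.Y720.MZ MvPolynomial

namespace Pool.Agent.Q13.TB

open Pool.Agent.Q35.TT Pool.Agent.Q35.TB WeierstrassCurve

/-! ### Torsion points -/

section tor

variable {K L : Type} [Field K] [Field L]

open Pool.Agent.Q79.TT (TW)

theorem tw_map_iff (φ : K →+* L) (W : WeierstrassCurve K) (x y : K) (n : ℕ) :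
    TW (W.map φ) (φ x) (φ y) n ↔ TW W x y n := by
  refine ⟨fun h => ?_, Pool.Agent.Q79.TT.tw_map φ⟩
  let _ : Algebra K L := φ.toAlgebra
  let _ : DecidableEq K := Classical.decEq K
  let _ : DecidableEq L := Classical.decEq L
  have hW : (W.map (algebraMap K K)) = W := by
    ext <;> rfl
  suffices key : TW (W.map (algebraMap K K)) x y n by
    rw [hW] at key
    exact key
  obtain ⟨h1, h2⟩ := h
  have h0 := (W.toAffine.baseChange_nonsingular (Algebra.ofId K L).injective x y).mp h1
  refine ⟨h0, ?_⟩
  have h4 := (Affine.Point.map (W' := W.toAffine) (Algebra.ofId K L)).map_nsmul n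
    (Affine.Point.some x y h0)
  refine Affine.Point.map_injective (W' := W.toAffine) (Algebra.ofId K L) ?_
  refine h4.trans ?_
  exact h2.trans (map_zero (Affine.Point.map (W' := W.toAffine) (Algebra.ofId K L))).symm

theorem torP_map_iff (φ : K →+* L) (a b c x y : K) (n : ℕ) :
    TorP (φ a) (φ b) (φ c) (φ x) (φ y) n ↔ TorP a b c x y n := by
  have e : (cv a b c).map φ = cv (φ a) (φ b) (φ c) := by
    ext <;> simp [cv]
  have h := tw_map_iff φ (cv a b c) x y n
  rw [e] at h
  exact h

theorem bq_map' (φ : K →+* L) (a : Fin 5 → K) (x : Fin 2 → K) :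
    bq (fun k => φ (a k)) (fun b => φ (x b)) = φ (bq a x) := by
  unfold bq
  simp only [map_add, map_mul, map_pow]

theorem bd_map' (φ : K →+* L) (a : Fin 5 → K) (x : Fin 2 → K) (k : Fin 2) :
    bd (fun k => φ (a k)) (fun b => φ (x b)) k = φ (bd a x k) := by
  have h2 : φ 2 = 2 := map_ofNat φ 2
  have h3 : φ 3 = 3 := map_ofNat φ 3
  have h4 : φ 4 = 4 := map_ofNat φ 4
  fin_cases k <;> simp [bd, h2, h3, h4]

theorem tay_map' (φ : K →+* L) (a : Fin 5 → K) (s : K) (i : Fin 4) :
    tay (fun k => φ (a k)) (φ s) i = φ (tay a s i) := by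
  have h2 : φ 2 = 2 := map_ofNat φ 2
  have h3 : φ 3 = 3 := map_ofNat φ 3
  have h4 : φ 4 = 4 := map_ofNat φ 4
  have h6 : φ 6 = 6 := map_ofNat φ 6
  fin_cases i <;> simp [tay, h2, h3, h4, h6]

theorem vec_map (φ : K →+* L) (s : K) : (![1, φ s] : Fin 2 → L) = fun b => φ ((![1, s] : Fin 2 → K) b) := by
  funext b
  fin_cases b <;> simp

theorem tor_map_iff (φ : K →+* L) (a : Fin 5 → K) (s w : K) (n : ℕ) :
    Tor (fun k => φ (a k)) (φ s) (φ w) n ↔ Tor a s w n := by
  unfold Tor
  have h1 : φ w ≠ 0 ↔ w ≠ 0 := by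
    rw [Ne, map_eq_zero]
  have h2 : φ w ^ 2 = bq (fun k => φ (a k)) ![1, φ s] ↔ w ^ 2 = bq a ![1, s] := by
    rw [vec_map, bq_map', ← map_pow]
    exact φ.injective.eq_iff
  have h3 : dc (φ (a 0)) (φ (a 1)) (φ (a 2)) (φ (a 3)) (φ (a 4)) ≠ 0 ↔
      dc (a 0) (a 1) (a 2) (a 3) (a 4) ≠ 0 := by
    rw [map_dc, Ne, map_eq_zero]
  rw [h1, h2, h3]
  refine and_congr Iff.rfl (and_congr Iff.rfl (and_congr Iff.rfl ?_))
  rw [← torP_map_iff φ]
  have e1 : rb (φ w) (φ (tay a s 0)) (φ (tay a s 2)) (φ (tay a s 3)) =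
      φ (rb w (tay a s 0) (tay a s 2) (tay a s 3)) := by
    unfold rb
    simp only [map_sub, map_mul, map_pow, map_ofNat]
  have e2 : rc (φ w) (φ (tay a s 0)) (φ (tay a s 1)) (φ (tay a s 2)) (φ (tay a s 3)) =
      φ (rc w (tay a s 0) (tay a s 1) (tay a s 2) (tay a s 3)) := by
    unfold rc
    simp only [map_sub, map_add, map_mul, map_pow, map_ofNat]
  have e3 : xs (φ w) (φ (tay a s 0)) (φ (tay a s 1)) = φ (xs w (tay a s 0) (tay a s 1)) := by
    unfold xs
    simp only [map_sub, map_mul, map_pow, map_ofNat, map_div₀]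
  have e4 : ys (φ w) (φ (tay a s 0)) (φ (tay a s 1)) (φ (tay a s 2)) =
      φ (ys w (tay a s 0) (tay a s 1) (tay a s 2)) := by
    unfold ys
    rw [e3]
    simp only [map_add, map_mul, map_pow, map_ofNat, map_div₀]
  simp only [tay_map']
  rw [e1, e2, e3, e4]

theorem torT_map_iff (φ : K →+* L) (a : Fin 5 → K) (s : K) (n : ℕ) :
    TorT (fun k => φ (a k)) (φ s) n ↔ TorT a s n := by
  unfold TorT
  rw [← tor_map_iff φ]
  have h : bq (fun k => φ (a k)) ![1, φ s] = φ (bq a ![1, s]) := by
    rw [vec_map, bq_map']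
  rw [h]
  simp only [map_mul]

end tor

/-! ### Forms -/

section forms

variable {R S : Type} [CommRing R] [CommRing S] {n : ℕ}

theorem mo_map' (φ : R →+* S) (m : Fin n →₀ ℕ) (x : Fin n → Fin 2 → R) (i : Fin n) :
    φ (mo m x i) = mo m (fun j b => φ (x j b)) i := by
  unfold mo
  rw [map_prod]
  simp only [map_mul, map_pow]

theorem lc_map' (φ : R →+* S) (f : MvPolynomial (Fin n) R) (x : Fin n → Fin 2 → R) (i : Fin n)
    (k : Fin 5) : φ (lc f x i k) = lc (map φ f) (fun j b => φ (x j b)) i k := by
  classical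
  unfold lc
  rw [map_sum]
  have hsub : (map φ f).support.filter (fun m => m i = (k : ℕ)) ⊆
      f.support.filter (fun m => m i = (k : ℕ)) :=
    Finset.filter_subset_filter _ (support_map_subset φ f)
  have h1 : ∑ m ∈ (map φ f).support.filter (fun m => m i = (k : ℕ)), (map φ f).coeff m *
      mo m (fun j b => φ (x j b)) i = ∑ m ∈ f.support.filter (fun m => m i = (k : ℕ)),
      (map φ f).coeff m * mo m (fun j b => φ (x j b)) i := by
    refine Finset.sum_subset hsub fun m hm hm' => ?_
    have h0 : (map φ f).coeff m = 0 := by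
      by_contra h
      exact hm' (Finset.mem_filter.2 ⟨mem_support_iff.2 h, (Finset.mem_filter.1 hm).2⟩)
    rw [h0, zero_mul]
  rw [h1]
  refine Finset.sum_congr rfl fun m _ => ?_
  rw [map_mul, mo_map', coeff_map]

theorem af_map' (φ : R →+* S) (z : Fin n → R) :
    (af fun j => φ (z j)) = fun j b => φ (af z j b) := by
  funext j b
  unfold af
  fin_cases b <;> simp

end forms

/-! ### The algebraic closures -/

theorem exists_iso (K L : Type) [Field K] [Field L] [Algebra K L] [Algebra.IsAlgebraic K L] :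
    Nonempty (AlgebraicClosure K ≃ₐ[K] AlgebraicClosure L) := by
  haveI : Algebra.IsAlgebraic K (AlgebraicClosure L) :=
    Algebra.IsAlgebraic.trans K L (AlgebraicClosure L)
  haveI : IsAlgClosure K (AlgebraicClosure L) := ⟨inferInstance, inferInstance⟩
  exact ⟨IsAlgClosure.equiv K (AlgebraicClosure K) (AlgebraicClosure L)⟩

section main

variable {K L : Type} [Field K] [Field L] [Algebra K L] {n : ℕ}

theorem hom4_ex {F : MvPolynomial (Fin n × Fin 2) K} (hF : Hom4 F) : Hom4 (ex L F) :=
  fun m hm j => hF m (support_map_subset _ _ hm) j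

theorem smoothF_ex [Algebra.IsAlgebraic K L] (F : MvPolynomial (Fin n × Fin 2) K) :
    SmoothF F ↔ SmoothF (ex L F) := by
  obtain ⟨φ⟩ := exists_iso K L
  have key : ∀ (x : Fin n × Fin 2 → AlgebraicClosure K) (p : Fin n × Fin 2),
      aeval (fun q => φ (x q)) (pderiv p (ex L F)) = φ (aeval x (pderiv p F)) := by
    intro x p
    rw [pderiv_map, aeval_map_algebraMap]
    exact (comp_aeval_apply (f := x) φ.toAlgHom (pderiv p F)).symm
  constructor
  · intro h x hx
    obtain ⟨p, hp⟩ := h (fun q => φ.symm (x q)) (fun j => by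
      obtain ⟨b, hb⟩ := hx j
      refine ⟨b, ?_⟩
      rw [Ne, map_eq_zero]
      exact hb)
    refine ⟨p, ?_⟩
    have h1 := key (fun q => φ.symm (x q)) p
    simp only [AlgEquiv.apply_symm_apply] at h1
    rw [h1, Ne, map_eq_zero]
    exact hp
  · intro h x hx
    obtain ⟨p, hp⟩ := h (fun q => φ (x q)) (fun j => by
      obtain ⟨b, hb⟩ := hx j
      refine ⟨b, ?_⟩
      rw [Ne, map_eq_zero]
      exact hb)
    refine ⟨p, ?_⟩
    rw [key, Ne, map_eq_zero] at hp
    exact hp

theorem smoothN_ex [Algebra.IsAlgebraic K L] (f : MvPolynomial (Fin n) K) :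
    SmoothN f ↔ SmoothN (ex L f) := by
  obtain ⟨φ⟩ := exists_iso K L
  have hm : map (algebraMap L (AlgebraicClosure L)) (ex L f) =
      map (φ : AlgebraicClosure K →+* AlgebraicClosure L)
        (map (algebraMap K (AlgebraicClosure K)) f) := by
    have e : algebraMap K (AlgebraicClosure L) =
        (φ : AlgebraicClosure K →+* AlgebraicClosure L).comp
          (algebraMap K (AlgebraicClosure K)) := RingHom.ext fun t => (φ.commutes t).symm
    rw [MvPolynomial.map_map, MvPolynomial.map_map, ← IsScalarTower.algebraMap_eq, e]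
  have key : ∀ (x : Fin n → Fin 2 → AlgebraicClosure K) (i : Fin n) (k : Fin 2),
      bd (lc (map (algebraMap L (AlgebraicClosure L)) (ex L f)) (fun j b => φ (x j b)) i)
        (fun b => φ (x i b)) k =
      φ (bd (lc (map (algebraMap K (AlgebraicClosure K)) f) x i) (x i) k) := by
    intro x i k
    rw [hm]
    have h1 : lc (map (φ : AlgebraicClosure K →+* AlgebraicClosure L)
        (map (algebraMap K (AlgebraicClosure K)) f)) (fun j b => φ (x j b)) i =
        fun k => φ (lc (map (algebraMap K (AlgebraicClosure K)) f) x i k) := by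
      funext k
      exact (lc_map' (φ : AlgebraicClosure K →+* AlgebraicClosure L) _ x i k).symm
    rw [h1]
    exact bd_map' (φ : AlgebraicClosure K →+* AlgebraicClosure L) _ _ k
  constructor
  · intro h x hx
    obtain ⟨i, k, hik⟩ := h (fun j b => φ.symm (x j b)) (fun j h0 => hx j (by
      funext b
      have h1 := congrFun h0 b
      show x j b = 0
      have h2 : φ.symm (x j b) = 0 := h1
      rw [map_eq_zero] at h2
      exact h2))
    refine ⟨i, k, ?_⟩
    have h1 := key (fun j b => φ.symm (x j b)) i k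
    simp only [AlgEquiv.apply_symm_apply] at h1
    rw [h1, Ne, map_eq_zero]
    exact hik
  · intro h x hx
    obtain ⟨i, k, hik⟩ := h (fun j b => φ (x j b)) (fun j h0 => hx j (by
      funext b
      have h1 := congrFun h0 b
      show x j b = 0
      have h2 : φ (x j b) = 0 := h1
      rw [map_eq_zero] at h2
      exact h2))
    refine ⟨i, k, ?_⟩
    rw [key, Ne, map_eq_zero] at hik
    exact hik

theorem ch_ex (F : MvPolynomial (Fin n × Fin 2) K) (ε : Fin n → Fin 2) :
    ch (ex L F) ε = ex L (ch F ε) := by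
  unfold ch
  induction F using MvPolynomial.induction_on with
  | C a => simp
  | add p q hp hq =>
    show aeval _ (map (algebraMap K L) (p + q)) = map (algebraMap K L) (aeval _ (p + q))
    rw [map_add, map_add, map_add, map_add]
    exact congrArg₂ (· + ·) hp hq
  | mul_X p q hp =>
    show aeval _ (map (algebraMap K L) (p * X q)) = map (algebraMap K L) (aeval _ (p * X q))
    rw [map_mul, map_mul, map_mul, map_mul, map_X, aeval_X, aeval_X]
    refine congrArg₂ (· * ·) hp ?_
    split_ifs
    · rw [map_one]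
    · rw [map_X]

theorem eval_ex {ι : Type} (f : MvPolynomial ι K) (z : ι → K) :
    eval (fun j => algebraMap K L (z j)) (ex L f) = algebraMap K L (eval z f) := by
  show eval (fun j => algebraMap K L (z j)) (map (algebraMap K L) f) = _
  rw [eval_map]
  exact (eval₂_comp_left (algebraMap K L) (RingHom.id K) z f).symm

theorem specF_ex [CharZero K] (F : MvPolynomial (Fin n × Fin 2) K) (X₀ : Fin n × Fin 2 → K)
    (J : Finset (Fin n)) :
    SpecF (ex L F) (fun p => algebraMap K L (X₀ p)) J ↔ SpecF F X₀ J := by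
  constructor
  · intro h k hk b
    obtain ⟨t, ht⟩ := h k hk b
    have h1 : ∀ Y, OnPF J X₀ Y → algebraMap K L (eval Y (pderiv (k, b) F)) =
        t * algebraMap K L (eval Y F) := by
      intro Y hY
      have h2 := ht (fun p => algebraMap K L (Y p)) (fun j hj b => by
        show algebraMap K L (Y (j, b)) = algebraMap K L (X₀ (j, b))
        rw [hY j hj b])
      rw [pderiv_map, eval_ex, eval_ex] at h2
      exact h2
    by_cases h0 : ∃ Y, OnPF J X₀ Y ∧ eval Y F ≠ 0
    · obtain ⟨Y₀, hY₀, hne⟩ := h0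
      refine ⟨eval Y₀ (pderiv (k, b) F) / eval Y₀ F, fun Y hY => ?_⟩
      apply (algebraMap K L).injective
      have h2 := h1 Y₀ hY₀
      have h3 : algebraMap K L (eval Y₀ F) ≠ 0 := by
        rw [Ne, map_eq_zero]
        exact hne
      rw [map_mul, map_div₀, h2, h1 Y hY]
      field_simp
    · push Not at h0
      refine ⟨0, fun Y hY => ?_⟩
      apply (algebraMap K L).injective
      rw [h1 Y hY, h0 Y hY, map_zero, mul_zero, zero_mul, map_zero]
  · intro h k hk b
    obtain ⟨t, ht⟩ := h k hk b
    refine ⟨algebraMap K L t, fun Y hY => ?_⟩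
    obtain ⟨g, hg⟩ : ∃ g : Fin n × Fin 2 → MvPolynomial (Fin n × Fin 2) K,
        g = fun p => if p.1 ∈ J then X p else C (X₀ p) := ⟨_, rfl⟩
    have hev : ∀ (Y : Fin n × Fin 2 → K) (G : MvPolynomial (Fin n × Fin 2) K),
        eval Y (aeval g G) = eval (fun p => if p.1 ∈ J then Y p else X₀ p) G := by
      intro Y G
      have h : (eval Y).comp (aeval g :
          MvPolynomial (Fin n × Fin 2) K →ₐ[K] MvPolynomial (Fin n × Fin 2) K).toRingHom =
          eval (fun p => if p.1 ∈ J then Y p else X₀ p) := by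
        refine ringHom_ext (fun a => ?_) (fun p => ?_)
        · simp
        · simp only [AlgHom.toRingHom_eq_coe, RingHom.coe_comp, RingHom.coe_coe, Function.comp_apply, aeval_X,
            eval_X, hg]
          split_ifs <;> simp
      exact RingHom.congr_fun h G
    have hev2 : ∀ (Y : Fin n × Fin 2 → L) (G : MvPolynomial (Fin n × Fin 2) K),
        eval Y (ex L (aeval g G)) =
          eval (fun p => if p.1 ∈ J then Y p else algebraMap K L (X₀ p)) (ex L G) := by
      intro Y G
      have h : ((eval Y).comp (map (algebraMap K L))).comp (aeval g :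
          MvPolynomial (Fin n × Fin 2) K →ₐ[K] MvPolynomial (Fin n × Fin 2) K).toRingHom =
          (eval (fun p => if p.1 ∈ J then Y p else algebraMap K L (X₀ p))).comp
            (map (algebraMap K L)) := by
        refine ringHom_ext (fun a => ?_) (fun p => ?_)
        · simp
        · simp only [AlgHom.toRingHom_eq_coe, RingHom.coe_comp, RingHom.coe_coe, Function.comp_apply, aeval_X,
            eval_X, hg, map_X]
          split_ifs <;> simp
      exact RingHom.congr_fun h G
    have hz : aeval g (pderiv (k, b) F - C t * F) = 0 := by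
      apply MvPolynomial.funext
      intro Y
      rw [hev, map_zero, map_sub, map_mul, eval_C,
        ht (fun p => if p.1 ∈ J then Y p else X₀ p) (fun j hj b => if_neg hj), sub_self]
    have h2 := hev2 Y (pderiv (k, b) F - C t * F)
    rw [hz] at h2
    have h0 : ex L (0 : MvPolynomial (Fin n × Fin 2) K) = 0 := map_zero _
    rw [h0, map_zero] at h2
    have h3 : (fun p : Fin n × Fin 2 => if p.1 ∈ J then Y p else algebraMap K L (X₀ p)) = Y := by
      funext p
      split_ifs with hp
      · rfl
      · exact (hY p.1 hp p.2).symm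
    have h4 : ex L (pderiv (k, b) F - C t * F) =
        pderiv (k, b) (ex L F) - C (algebraMap K L t) * ex L F := by
      show map (algebraMap K L) (pderiv (k, b) F - C t * F) = _
      rw [map_sub, map_mul, map_C, pderiv_map]
    rw [h3, h4, map_sub, map_mul, eval_C] at h2
    exact sub_eq_zero.1 h2.symm

theorem degree_ex (f : MvPolynomial (Fin n) K) (j : Fin n) (h : f.degreeOf j ≤ 4) :
    (ex L f).degreeOf j ≤ 4 := by
  rw [degreeOf_le_iff] at h ⊢
  exact fun m hm => h m (support_map_subset _ _ hm)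

theorem torN_ex (f : MvPolynomial (Fin n) K) (z : Fin n → K) (i : Fin n) :
    TorN (ex L f) (fun j => algebraMap K L (z j)) i ↔ TorN f z i := by
  unfold TorN
  refine exists_congr fun N => and_congr Iff.rfl ?_
  rw [← torT_map_iff (algebraMap K L)]
  have h : lc (ex L f) (af fun j => algebraMap K L (z j)) i =
      fun k => algebraMap K L (lc f (af z) i k) := by
    funext k
    rw [lc_map' (algebraMap K L), af_map']
  rw [h]

end main

/-- **Job EXF.** -/
theorem exf (h3 : S_CHF) : S_EXF := by
  intro K L _ _ _ _ _ n F hF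
  exact ⟨hom4_ex hF, smoothF_ex F, ch_ex F, fun X J => specF_ex F X J, fun f hf =>
    ⟨fun j => degree_ex f j (hf j), smoothN_ex f, fun z i => torN_ex f z i⟩⟩

end Pool.Agent.Q13.TB
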