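import Pool.Agent.Q35.TB.Enr
import Pool.Agent.Q182.TT.Chf
import Pool.Agent.Q190.TT.Tws
import Pool.Agent.Q79.TT.Glt

/-!
# Project TB (helper35), job SCF: change of variables `x_{j,1} ↦ c x_{j,1}`
-/

set_option autoImplicit false

open Pool.Agent.Y720.MZ MvPolynomial

namespace Pool.Agent.Q13.TB

open Pool.Agent.Q35.TT Pool.Agent.Q35.TB
open Pool.Agent.Q190.TT (torT_smul tws)
open Pool.Agent.Q182.TT.CHF (sum_ch red red_apply hom_red)

section scale

variable {K : Type} [Field K]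

/-- the torsion condition after scaling of the variable, one direction -/
theorem torT_scale_aux (h : S_TRN) [CharZero K] (a : Fin 5 → K) (μ s : K) (n : ℕ) (hμ : μ ≠ 0)
    (ht : TorT a (μ * s) n) : TorT (fun k => μ ^ (k : ℕ) * a k) s n := by
  have hb : bq (fun k : Fin 5 => μ ^ (k : ℕ) * a k) ![1, s] = bq a ![1, μ * s] := by
    rw [Pool.Agent.Q224.TT.Loc.bq1, Pool.Agent.Q224.TT.Loc.bq1]
    simp only [Fin.val_zero, Fin.val_one, Fin.val_two, show ((3 : Fin 5) : ℕ) = 3 from rfl,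
      show ((4 : Fin 5) : ℕ) = 4 from rfl]
    ring
  unfold TorT at ht ⊢
  rw [hb]
  obtain ⟨g, hg⟩ : ∃ g : K, g = bq a ![1, μ * s] := ⟨_, rfl⟩
  rw [← hg] at ht ⊢
  obtain ⟨hw, hw2, hdc, htor⟩ := ht
  have hb2 : bq (fun k : Fin 5 => g * (μ ^ (k : ℕ) * a k)) ![1, s] =
      bq (fun k => g * a k) ![1, μ * s] := by
    rw [Pool.Agent.Q190.TT.bq_smul, Pool.Agent.Q190.TT.bq_smul, hb]
  have t0 : tay (fun k : Fin 5 => g * (μ ^ (k : ℕ) * a k)) s 0 =
      μ * tay (fun k => g * a k) (μ * s) 0 := by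
    rw [Pool.Agent.Q224.TT.Loc.tay0, Pool.Agent.Q224.TT.Loc.tay0]
    simp only [Fin.val_zero, Fin.val_one, Fin.val_two, show ((3 : Fin 5) : ℕ) = 3 from rfl,
      show ((4 : Fin 5) : ℕ) = 4 from rfl]
    ring
  have t1 : tay (fun k : Fin 5 => g * (μ ^ (k : ℕ) * a k)) s 1 =
      μ ^ 2 * tay (fun k => g * a k) (μ * s) 1 := by
    rw [Pool.Agent.Q224.TT.Loc.tay1, Pool.Agent.Q224.TT.Loc.tay1]
    simp only [Fin.val_zero, Fin.val_one, Fin.val_two, show ((3 : Fin 5) : ℕ) = 3 from rfl,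
      show ((4 : Fin 5) : ℕ) = 4 from rfl]
    ring
  have t2 : tay (fun k : Fin 5 => g * (μ ^ (k : ℕ) * a k)) s 2 =
      μ ^ 3 * tay (fun k => g * a k) (μ * s) 2 := by
    rw [Pool.Agent.Q224.TT.Loc.tay2, Pool.Agent.Q224.TT.Loc.tay2]
    simp only [show ((3 : Fin 5) : ℕ) = 3 from rfl, show ((4 : Fin 5) : ℕ) = 4 from rfl]
    ring
  have t3 : tay (fun k : Fin 5 => g * (μ ^ (k : ℕ) * a k)) s 3 =
      μ ^ 4 * tay (fun k => g * a k) (μ * s) 3 := by
    rw [Pool.Agent.Q224.TT.Loc.tay3, Pool.Agent.Q224.TT.Loc.tay3]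
    simp only [show ((4 : Fin 5) : ℕ) = 4 from rfl]
    ring
  have hdsc := Pool.Agent.Q224.TT.Loc.dsc_tay (fun k => g * a k) (μ * s) g hw2
  refine ⟨hw, by rw [hw2, hb2], ?_, ?_⟩
  · show dc (g * (μ ^ ((0 : Fin 5) : ℕ) * a 0)) (g * (μ ^ ((1 : Fin 5) : ℕ) * a 1))
      (g * (μ ^ ((2 : Fin 5) : ℕ) * a 2)) (g * (μ ^ ((3 : Fin 5) : ℕ) * a 3))
      (g * (μ ^ ((4 : Fin 5) : ℕ) * a 4)) ≠ 0
    have e : dc (g * (μ ^ ((0 : Fin 5) : ℕ) * a 0)) (g * (μ ^ ((1 : Fin 5) : ℕ) * a 1))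
      (g * (μ ^ ((2 : Fin 5) : ℕ) * a 2)) (g * (μ ^ ((3 : Fin 5) : ℕ) * a 3))
      (g * (μ ^ ((4 : Fin 5) : ℕ) * a 4)) =
      μ ^ 12 * dc (g * a 0) (g * a 1) (g * a 2) (g * a 3) (g * a 4) := by
      simp only [Fin.val_zero, Fin.val_one, Fin.val_two, show ((3 : Fin 5) : ℕ) = 3 from rfl,
        show ((4 : Fin 5) : ℕ) = 4 from rfl]
      unfold dc dsc
      ring
    rw [e]
    exact mul_ne_zero (pow_ne_zero _ hμ) hdc
  · rw [t0, t1, t2, t3]
    have h1 := h K _ _ _ _ _ μ⁻¹ 0 n (inv_ne_zero hμ) (by rw [hdsc]; exact hdc) htor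
    obtain ⟨q0, hq0⟩ : ∃ q : K, q = tay (fun k => g * a k) (μ * s) 0 := ⟨_, rfl⟩
    obtain ⟨q1, hq1⟩ : ∃ q : K, q = tay (fun k => g * a k) (μ * s) 1 := ⟨_, rfl⟩
    obtain ⟨q2, hq2⟩ : ∃ q : K, q = tay (fun k => g * a k) (μ * s) 2 := ⟨_, rfl⟩
    obtain ⟨q3, hq3⟩ : ∃ q : K, q = tay (fun k => g * a k) (μ * s) 3 := ⟨_, rfl⟩
    rw [← hq0, ← hq1, ← hq2, ← hq3] at h1 ⊢
    have e1 : (q1 + 3 * 0) / μ⁻¹ ^ 2 = μ ^ 2 * q1 := by
      field_simp
      ring
    have e2 : (rb g q0 q2 q3 + 2 * 0 * q1 + 3 * 0 ^ 2) / μ⁻¹ ^ 4 =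
        rb g (μ * q0) (μ ^ 3 * q2) (μ ^ 4 * q3) := by
      unfold rb
      field_simp
      ring
    have e3 : (rc g q0 q1 q2 q3 + 0 * rb g q0 q2 q3 + 0 ^ 2 * q1 + 0 ^ 3) / μ⁻¹ ^ 6 =
        rc g (μ * q0) (μ ^ 2 * q1) (μ ^ 3 * q2) (μ ^ 4 * q3) := by
      unfold rc
      field_simp
      ring
    have e4 : (xs g q0 q1 - 0) / μ⁻¹ ^ 2 = xs g (μ * q0) (μ ^ 2 * q1) := by
      unfold xs
      field_simp
      ring
    have e5 : ys g q0 q1 q2 / μ⁻¹ ^ 3 = ys g (μ * q0) (μ ^ 2 * q1) (μ ^ 3 * q2) := by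
      unfold ys xs
      field_simp
    rw [e1, e2, e3, e4, e5] at h1
    exact h1

theorem torT_scale (h : S_TRN) [CharZero K] (a : Fin 5 → K) (μ s : K) (n : ℕ) (hμ : μ ≠ 0) :
    TorT (fun k => μ ^ (k : ℕ) * a k) s n ↔ TorT a (μ * s) n := by
  refine ⟨fun ht => ?_, torT_scale_aux h a μ s n hμ⟩
  have e1 : s = μ⁻¹ * (μ * s) := by
    rw [← mul_assoc, inv_mul_cancel₀ hμ, one_mul]
  rw [e1] at ht
  have h1 := torT_scale_aux h (fun k : Fin 5 => μ ^ (k : ℕ) * a k) μ⁻¹ (μ * s) n (inv_ne_zero hμ) ht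
  have e2 : (fun k : Fin 5 => μ⁻¹ ^ (k : ℕ) * (μ ^ (k : ℕ) * a k)) = a := by
    funext k
    rw [← mul_assoc, ← mul_pow, inv_mul_cancel₀ hμ, one_pow, one_mul]
  rw [e2] at h1
  exact h1

end scale

/-! ### Scaling of the coordinates -/

section sc

variable {σ K : Type} [Field K]

/-- the substitution `X q ↦ s q X q` -/
noncomputable def sc (s : σ → K) (F : MvPolynomial σ K) : MvPolynomial σ K :=
  aeval (fun q => C (s q) * X q) F

theorem aeval_sc {R : Type} [CommRing R] [Algebra K R] (s : σ → K) (F : MvPolynomial σ K) (y : σ → R) :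
    aeval y (sc s F) = aeval (fun q => algebraMap K R (s q) * y q) F := by
  have h : (aeval y).comp (aeval (fun q => C (s q) * X q) : MvPolynomial σ K →ₐ[K] MvPolynomial σ K) =
      aeval (fun q => algebraMap K R (s q) * y q) := by
    refine algHom_ext fun q => ?_
    rw [AlgHom.comp_apply, aeval_X, aeval_X, map_mul, aeval_X, aeval_C]
  exact DFunLike.congr_fun h F

theorem eval_sc (s : σ → K) (F : MvPolynomial σ K) (y : σ → K) :
    eval y (sc s F) = eval (fun q => s q * y q) F := by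
  exact aeval_sc (R := K) s F y

theorem pderiv_sc (s : σ → K) (F : MvPolynomial σ K) (p : σ) :
    pderiv p (sc s F) = C (s p) * sc s (pderiv p F) := by
  classical
  unfold sc
  induction F using MvPolynomial.induction_on with
  | C a => simp
  | add f g hf hg => rw [map_add, map_add, map_add, map_add, hf, hg, mul_add]
  | mul_X f q hf =>
    rw [map_mul, pderiv_mul, pderiv_mul, map_add, map_mul, map_mul, hf, aeval_X, pderiv_mul,
      pderiv_C, zero_mul, zero_add]
    by_cases hq : q = p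
    · subst hq
      rw [pderiv_X_self, map_one, mul_one, mul_one]
      ring
    · rw [pderiv_X_of_ne hq, map_zero, mul_zero, mul_zero, add_zero, add_zero, mul_assoc]

theorem coeff_sc [Fintype σ] (s : σ → K) (F : MvPolynomial σ K) (M : σ →₀ ℕ) :
    coeff M (sc s F) = (∏ q, s q ^ M q) * coeff M F := by
  classical
  have h : ∀ N a, sc s (monomial N a) = monomial N ((∏ q, s q ^ N q) * a) := by
    intro N a
    unfold sc
    rw [aeval_monomial, Finsupp.prod_fintype _ _ (fun _ => pow_zero _)]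
    simp only [mul_pow, Finset.prod_mul_distrib]
    rw [monomial_eq, Finsupp.prod_fintype _ _ (fun _ => pow_zero _), algebraMap_eq, C_mul, map_prod]
    simp only [map_pow]
    ring
  have h1 : sc s F = ∑ N ∈ F.support, sc s (monomial N (coeff N F)) := by
    unfold sc
    conv_lhs => rw [F.as_sum]
    rw [map_sum]
  rw [h1, coeff_sum]
  simp only [h, coeff_monomial]
  rw [Finset.sum_ite_eq']
  split_ifs with hM
  · rfl
  · rw [notMem_support_iff.1 hM, mul_zero]

end sc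

/-! ### Job SCF -/

section scf

variable {K : Type} [Field K] {n : ℕ}

/-- the scaling factors -/
def kap (c : K) (p : Fin n × Fin 2) : K := if p.2 = 1 then c else 1

theorem kap_ne (c : K) (hc : c ≠ 0) (p : Fin n × Fin 2) : kap c p ≠ 0 := by
  unfold kap
  split_ifs
  · exact hc
  · exact one_ne_zero

theorem kap_mul (c : K) (X : Fin n × Fin 2 → K) :
    (fun p => if p.2 = 1 then c * X p else X p) = fun p => kap c p * X p := by
  funext p
  unfold kap
  split_ifs
  · rfl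
  · rw [one_mul]

theorem G_eq [CharZero K] (F G : MvPolynomial (Fin n × Fin 2) K) (c e : K)
    (h : ∀ X : Fin n × Fin 2 → K, eval X G =
      e * eval (fun p => if p.2 = 1 then c * X p else X p) F) : G = C e * sc (kap c) F := by
  apply MvPolynomial.funext
  intro X
  rw [h X, kap_mul, map_mul, eval_C, eval_sc]

/-- smoothness -/
theorem smooth_G [CharZero K] (F : MvPolynomial (Fin n × Fin 2) K) (c e : K) (hc : c ≠ 0)
    (he : e ≠ 0) (hF : SmoothF F) : SmoothF (C e * sc (kap c) F) := by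
  intro x hx
  obtain ⟨p, hp⟩ := hF (fun q => algebraMap K _ (kap c q) * x q) (fun j => by
    obtain ⟨b, hb⟩ := hx j
    refine ⟨b, mul_ne_zero ?_ hb⟩
    rw [Ne, map_eq_zero]
    exact kap_ne c hc _)
  refine ⟨p, ?_⟩
  rw [pderiv_C_mul, pderiv_sc, map_mul, map_mul, aeval_C, aeval_C, aeval_sc]
  refine mul_ne_zero ?_ (mul_ne_zero ?_ hp)
  · rw [Ne, map_eq_zero]
    exact he
  · rw [Ne, map_eq_zero]
    exact kap_ne c hc _

/-- special planes -/
theorem spec_G [CharZero K] (F : MvPolynomial (Fin n × Fin 2) K) (c e : K) (hc : c ≠ 0)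
    (he : e ≠ 0) (X : Fin n × Fin 2 → K) (J : Finset (Fin n)) :
    SpecF (C e * sc (kap c) F) X J ↔ SpecF F (fun p => kap c p * X p) J := by
  constructor
  · intro h k hk b
    obtain ⟨t, ht⟩ := h k hk b
    refine ⟨t * (kap c (k, b))⁻¹, fun Y hY => ?_⟩
    have h1 := ht (fun p => (kap c p)⁻¹ * Y p) (fun j hj b => by
      show (kap c (j, b))⁻¹ * Y (j, b) = X (j, b)
      rw [hY j hj b]
      show (kap c (j, b))⁻¹ * (kap c (j, b) * X (j, b)) = X (j, b)
      rw [← mul_assoc, inv_mul_cancel₀ (kap_ne c hc _), one_mul])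
    have e1 : (fun q => kap c q * ((kap c q)⁻¹ * Y q)) = Y := by
      funext q
      rw [← mul_assoc, mul_inv_cancel₀ (kap_ne c hc _), one_mul]
    rw [pderiv_C_mul, pderiv_sc, map_mul, map_mul, map_mul, eval_C, eval_C, eval_sc, eval_sc, e1]
      at h1
    have h2 : kap c (k, b) * eval Y (pderiv (k, b) F) = t * eval Y F := by
      apply mul_left_cancel₀ he
      rw [h1]
      ring
    apply mul_left_cancel₀ (kap_ne c hc (k, b))
    rw [h2]
    have h3 := kap_ne c hc (k, b)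
    field_simp
  · intro h k hk b
    obtain ⟨t, ht⟩ := h k hk b
    refine ⟨t * kap c (k, b), fun Y hY => ?_⟩
    have h1 := ht (fun p => kap c p * Y p) (fun j hj b => by
      show kap c (j, b) * Y (j, b) = kap c (j, b) * X (j, b)
      rw [hY j hj b])
    rw [pderiv_C_mul, pderiv_sc, map_mul, map_mul, map_mul, eval_C, eval_C, eval_sc, eval_sc, h1]
    ring

/-- the coefficients of the quartic form in the chart -/
theorem lc_ch (F : MvPolynomial (Fin n × Fin 2) K) (ε : Fin n → Fin 2) (x : Fin n → Fin 2 → K)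
    (i : Fin n) (k : Fin 5) : lc (ch F ε) x i k =
      ∑ M ∈ F.support, coeff M F * (if red ε M i = (k : ℕ) then mo (red ε M) x i else 0) := by
  have h := sum_ch (RingHom.id K) F ε (fun m => if m i = (k : ℕ) then mo m x i else 0)
  rw [map_id] at h
  unfold lc
  rw [Finset.sum_filter]
  refine Eq.trans ?_ h
  refine Finset.sum_congr rfl fun m _ => ?_
  split_ifs
  · rfl
  · rw [mul_zero]

theorem lc_G [CharZero K] (F : MvPolynomial (Fin n × Fin 2) K) (hF : Hom4 F) (c e : K) (hc : c ≠ 0)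
    (ε : Fin n → Fin 2) (z : Fin n → K) (i : Fin n) :
    ∃ (e' μ : K), (e ≠ 0 → e' ≠ 0) ∧ μ ≠ 0 ∧ (if ε i = 0 then c * z i else z i / c) = μ * z i ∧
      lc (ch (C e * sc (kap c) F) ε) (af z) i = fun k : Fin 5 => e' * (μ ^ (k : ℕ) *
        lc (ch F ε) (af fun j => if ε j = 0 then c * z j else z j / c) i k) := by
  obtain ⟨θ, hθ⟩ : ∃ θ : Fin n → K, θ = fun j => if ε j = 0 then 1 else c ^ 4 := ⟨_, rfl⟩
  obtain ⟨ν, hν⟩ : ∃ ν : Fin n → K, ν = fun j => if ε j = 0 then c else c⁻¹ := ⟨_, rfl⟩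
  have hθ0 : ∀ j, θ j ≠ 0 := fun j => by
    rw [hθ]
    show (if ε j = 0 then (1 : K) else c ^ 4) ≠ 0
    split_ifs
    · exact one_ne_zero
    · exact pow_ne_zero _ hc
  have hν0 : ∀ j, ν j ≠ 0 := fun j => by
    rw [hν]
    show (if ε j = 0 then c else c⁻¹) ≠ 0
    split_ifs
    · exact hc
    · exact inv_ne_zero hc
  have hz : ∀ j, (if ε j = 0 then c * z j else z j / c) = ν j * z j := fun j => by
    rw [hν]
    show (if ε j = 0 then c * z j else z j / c) = (if ε j = 0 then c else c⁻¹) * z j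
    split_ifs
    · rfl
    · rw [div_eq_mul_inv, mul_comm]
  refine ⟨e * ∏ j, θ j, ν i, fun he => mul_ne_zero he (Finset.prod_ne_zero_iff.2 fun j _ => hθ0 j),
    hν0 i, hz i, ?_⟩
  funext k
  rw [lc_ch, lc_ch]
  -- the block of one index
  have hblk : ∀ M ∈ F.support, ∀ j, kap c (j, (0 : Fin 2)) ^ M (j, 0) * kap c (j, (1 : Fin 2)) ^ M (j, 1) =
      θ j * ν j ^ (red ε M j) := by
    intro M hM j
    obtain ⟨h1, h2⟩ := hom_red hF hM ε j
    have k0 : kap (n := n) c (j, (0 : Fin 2)) = 1 := by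
      unfold kap
      rw [if_neg (show ¬ ((0 : Fin 2) = 1) by decide)]
    have k1 : kap (n := n) c (j, (1 : Fin 2)) = c := by
      unfold kap
      rw [if_pos rfl]
    rw [k0, k1, one_pow, one_mul, hθ, hν]
    show c ^ M (j, 1) = (if ε j = 0 then 1 else c ^ 4) * (if ε j = 0 then c else c⁻¹) ^ (red ε M j)
    by_cases h0 : ε j = 0
    · rw [if_pos h0, if_pos h0, one_mul, red_apply, h0]
      rfl
    · have h0' : ε j = 1 := by
        revert h0
        generalize ε j = b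
        revert b
        decide
      rw [if_neg h0, if_neg h0]
      rw [h0'] at h1
      rw [h1]
      have h3 : c ^ 4 = c ^ (4 - red ε M j) * c ^ (red ε M j) := by
        rw [← pow_add]
        congr 1
        omega
      rw [h3, mul_assoc, ← mul_pow, mul_inv_cancel₀ hc, one_pow, mul_one]
  have hco : ∀ M ∈ F.support, coeff M (C e * sc (kap c) F) =
      e * ((∏ j, θ j) * ∏ j, ν j ^ red ε M j) * coeff M F := by
    intro M hM
    rw [coeff_C_mul, coeff_sc, Fintype.prod_prod_type, ← Finset.prod_mul_distrib, ← mul_assoc]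
    congr 2
    refine Finset.prod_congr rfl fun j _ => ?_
    rw [Fin.prod_univ_two]
    exact hblk M hM j
  have hmo : ∀ m : Fin n →₀ ℕ, mo m (af fun j => if ε j = 0 then c * z j else z j / c) i =
      (∏ j ∈ Finset.univ.erase i, ν j ^ m j) * mo m (af z) i := by
    intro m
    unfold mo
    rw [← Finset.prod_mul_distrib]
    refine Finset.prod_congr rfl fun j _ => ?_
    unfold af
    simp only [Matrix.cons_val_zero, Matrix.cons_val_one, one_pow, one_mul]
    rw [hz j, mul_pow]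
  have hsub : (C e * sc (kap c) F).support ⊆ F.support := by
    intro M hM
    rw [mem_support_iff] at hM ⊢
    intro h0
    apply hM
    rw [coeff_C_mul, coeff_sc, h0, mul_zero, mul_zero]
  rw [Finset.sum_subset hsub (fun M _ hM' => by rw [notMem_support_iff.1 hM', zero_mul]),
    Finset.mul_sum, Finset.mul_sum]
  refine Finset.sum_congr rfl fun M hM => ?_
  rw [hco M hM]
  split_ifs with hk
  · rw [hmo, ← Finset.mul_prod_erase Finset.univ (fun j => ν j ^ red ε M j) (Finset.mem_univ i), hk]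
    ring
  · ring

/-- **Job SCF.** -/
theorem scf (h1 : S_TRN) (h2 : S_CHF) : S_SCF := by
  intro K _ _ n F G hF hG c e hc he hGF
  have hG' := G_eq F G c e hGF
  subst hG'
  refine ⟨smooth_G F c e hc he, fun X J => ?_, fun ε z i => ?_⟩
  · rw [kap_mul]
    exact spec_G F c e hc he X J
  · obtain ⟨e', μ, he', hμ, hz, hlc⟩ := lc_G F hF c e hc ε z i
    unfold TorN
    refine exists_congr fun N => and_congr Iff.rfl ?_
    show TorT (lc (ch (C e * sc (kap c) F) ε) (af z) i) (z i) N ↔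
      TorT (lc (ch F ε) (af fun j => if ε j = 0 then c * z j else z j / c) i)
        (if ε i = 0 then c * z i else z i / c) N
    rw [hlc, hz, torT_smul (tws h1) _ _ _ _ (he' he), torT_scale h1 _ _ _ _ hμ]

end scf

end Pool.Agent.Q13.TB
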